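import Pool.Agent.W345.VO.Stm

/-!
Project VO, part COV: products of translation covariant fields (helper85).
-/

namespace Pool.Agent.W85.VO

open Pool.Agent.W345.VO

theorem bc_succ (r : ℤ) (i : ℕ) : ((i : ℂ) + 1) * bc r (i + 1) = ((r : ℂ) - i) * bc r i := by
  unfold bc
  have h1 := Ring.descPochhammer_eq_factorial_smul_choose r (i + 1)
  have h2 := Ring.descPochhammer_eq_factorial_smul_choose r i
  rw [descPochhammer_succ_right, Polynomial.smeval_mul, Polynomial.smeval_sub, Polynomial.smeval_X,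
    h2] at h1
  have h3 : ((i : Polynomial ℤ)).smeval r = (i : ℤ) := by
    rw [Polynomial.smeval_natCast]
    simp
  rw [h3, pow_one, Nat.factorial_succ, nsmul_eq_mul, nsmul_eq_mul] at h1
  have h4 : ((i.factorial : ℕ) : ℤ) * (((i : ℤ) + 1) * Ring.choose r (i + 1)) =
      ((i.factorial : ℕ) : ℤ) * ((r - i) * Ring.choose r i) := by
    push_cast at h1
    linarith
  have h5 : ((i.factorial : ℕ) : ℤ) ≠ 0 := by
    exact_mod_cast Nat.factorial_ne_zero i
  have h6 := mul_left_cancel₀ h5 h4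
  have h7 : ((((i : ℤ) + 1) * Ring.choose r (i + 1) : ℤ) : ℂ) =
      (((r - i) * Ring.choose r i : ℤ) : ℂ) := by rw [h6]
  push_cast at h7
  exact h7

variable {V : Type} [AddCommGroup V] [Module ℂ V]

theorem RR_sum (a b : ℤ → Module.End ℂ V) (r p q : ℤ) (v : V) (M : ℕ)
    (h : ∀ i : ℕ, M ≤ i → b (q + i) v = 0 ∧ a (p + i) v = 0) :
    RR a b r p q v = ∑ i ∈ Finset.range M, trm a b r p q v i := by
  unfold RR
  apply finsum_eq_sum_of_support_subset
  intro i hi
  rw [Finset.coe_range, Set.mem_Iio]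
  by_contra hM
  apply hi
  obtain ⟨h1, h2⟩ := h i (not_lt.1 hM)
  unfold trm
  rw [h1, h2, map_zero, map_zero, smul_zero, sub_zero, smul_zero]

/-- the telescoping terms -/
noncomputable def G (a b : ℤ → Module.End ℂ V) (r p q : ℤ) (v : V) (i : ℕ) : V :=
  ((-1 : ℂ) ^ i * bc r i * i) •
    (a (p + r - i) (b (q - 1 + i) v) - (-1 : ℂ) ^ r • b (q + r - i) (a (p - 1 + i) v))

theorem trm_cov (T : Module.End ℂ V) (a b : ℤ → Module.End ℂ V) (ha : Cov T a) (hb : Cov T b)
    (r p q : ℤ) (v : V) (i : ℕ) :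
    T (trm a b r p q v i) - trm a b r p q (T v) i + (p : ℂ) • trm a b r (p - 1) q v i +
      (q : ℂ) • trm a b r p (q - 1) v i = G a b r p q v (i + 1) - G a b r p q v i := by
  have hab : ∀ (m n : ℤ) (w : V), T (a m (b n w)) =
      a m (b n (T w)) + (-(n : ℂ)) • a m (b (n - 1) w) + (-(m : ℂ)) • a (m - 1) (b n w) := by
    intro m n w
    have h1 := ha m (b n w)
    have h2 := hb n w
    have h3 : T (b n w) = b n (T w) + (-(n : ℂ)) • b (n - 1) w := by
      rw [← h2]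
      abel
    rw [h3, map_add, map_smul] at h1
    rw [← h1]
    abel
  have hba : ∀ (m n : ℤ) (w : V), T (b m (a n w)) =
      b m (a n (T w)) + (-(n : ℂ)) • b m (a (n - 1) w) + (-(m : ℂ)) • b (m - 1) (a n w) := by
    intro m n w
    have h1 := hb m (a n w)
    have h2 := ha n w
    have h3 : T (a n w) = a n (T w) + (-(n : ℂ)) • a (n - 1) w := by
      rw [← h2]
      abel
    rw [h3, map_add, map_smul] at h1
    rw [← h1]
    abel
  have hc := bc_succ r i
  unfold trm G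
  rw [map_smul, map_sub, map_smul, hab, hba]
  -- normalise the indices
  have i1 : q + (i : ℤ) - 1 = q - 1 + i := by ring
  have i2 : p + r - (i : ℤ) - 1 = p + r - ((i + 1 : ℕ) : ℤ) := by push_cast; ring
  have i3 : p + (i : ℤ) - 1 = p - 1 + i := by ring
  have i4 : q + r - (i : ℤ) - 1 = q + r - ((i + 1 : ℕ) : ℤ) := by push_cast; ring
  have i5 : p - 1 + r - (i : ℤ) = p + r - ((i + 1 : ℕ) : ℤ) := by push_cast; ring
  have i6 : q - 1 + r - (i : ℤ) = q + r - ((i + 1 : ℕ) : ℤ) := by push_cast; ring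
  have i7 : q - 1 + ((i + 1 : ℕ) : ℤ) = q + i := by push_cast; ring
  have i8 : p - 1 + ((i + 1 : ℕ) : ℤ) = p + i := by push_cast; ring
  rw [i1, i2, i3, i4, i5, i6, i7, i8]
  have hc' : (-1 : ℂ) ^ (i + 1) * bc r (i + 1) * ((i + 1 : ℕ) : ℂ) =
      -((-1 : ℂ) ^ i * bc r i * ((r : ℂ) - i)) := by
    push_cast
    rw [pow_succ]
    calc (-1 : ℂ) ^ i * -1 * bc r (i + 1) * ((i : ℂ) + 1) =
        -((-1 : ℂ) ^ i * (((i : ℂ) + 1) * bc r (i + 1))) := by ring
      _ = _ := by rw [hc]; ring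
  rw [hc']
  generalize a (p + r - (i : ℤ)) (b (q - 1 + i) v) = x1
  generalize a (p + r - ((i + 1 : ℕ) : ℤ)) (b (q + i) v) = x2
  generalize b (q + r - (i : ℤ)) (a (p - 1 + i) v) = y1
  generalize b (q + r - ((i + 1 : ℕ) : ℤ)) (a (p + i) v) = y2
  generalize a (p + r - (i : ℤ)) (b (q + i) (T v)) = x3
  generalize b (q + r - (i : ℤ)) (a (p + i) (T v)) = y3
  generalize (-1 : ℂ) ^ r = s
  generalize (-1 : ℂ) ^ i * bc r i = c
  push_cast
  module

theorem cov : S_FIN → S_COV := by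
  intro _ V _ _ T a b c ha hb hTa hTb n hc m v
  rw [hc, hc, hc]
  -- bounds
  obtain ⟨N1, h1⟩ := hb v
  obtain ⟨N2, h2⟩ := ha v
  obtain ⟨N3, h3⟩ := hb (T v)
  obtain ⟨N4, h4⟩ := ha (T v)
  obtain ⟨M, hM⟩ : ∃ M : ℕ, N1 - m + 1 ≤ M ∧ N2 + 1 ≤ M ∧ N3 - m ≤ M ∧ N4 ≤ M :=
    ⟨(N1 - m + 1).toNat + (N2 + 1).toNat + (N3 - m).toNat + N4.toNat, by omega⟩
  have e1 : RR a b n 0 m v = ∑ i ∈ Finset.range M, trm a b n 0 m v i := by
    apply RR_sum
    intro i hi
    have : (M : ℤ) ≤ i := by exact_mod_cast hi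
    exact ⟨h1 _ (by omega), h2 _ (by omega)⟩
  have e2 : RR a b n 0 m (T v) = ∑ i ∈ Finset.range M, trm a b n 0 m (T v) i := by
    apply RR_sum
    intro i hi
    have : (M : ℤ) ≤ i := by exact_mod_cast hi
    exact ⟨h3 _ (by omega), h4 _ (by omega)⟩
  have e3 : RR a b n 0 (m - 1) v = ∑ i ∈ Finset.range M, trm a b n 0 (m - 1) v i := by
    apply RR_sum
    intro i hi
    have : (M : ℤ) ≤ i := by exact_mod_cast hi
    exact ⟨h1 _ (by omega), h2 _ (by omega)⟩
  rw [e1, e2, e3]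
  have h5 : ∑ i ∈ Finset.range M, (T (trm a b n 0 m v i) - trm a b n 0 m (T v) i +
      ((0 : ℤ) : ℂ) • trm a b n (0 - 1) m v i + (m : ℂ) • trm a b n 0 (m - 1) v i) =
      G a b n 0 m v M - G a b n 0 m v 0 := by
    rw [← Finset.sum_range_sub]
    apply Finset.sum_congr rfl
    intro i _
    exact trm_cov T a b hTa hTb n 0 m v i
  have h6 : G a b n 0 m v 0 = 0 := by
    unfold G
    simp
  have h7 : G a b n 0 m v M = 0 := by
    unfold G
    rw [h1 (m - 1 + M) (by omega), h2 (0 - 1 + M) (by omega), map_zero, map_zero, smul_zero,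
      sub_zero, smul_zero]
  rw [h6, h7, sub_zero, Finset.sum_add_distrib, Finset.sum_add_distrib, Finset.sum_sub_distrib,
    ← map_sum, ← Finset.smul_sum, ← Finset.smul_sum, Int.cast_zero, zero_smul, add_zero] at h5
  rw [neg_smul]
  exact eq_neg_of_add_eq_zero_left h5

end Pool.Agent.W85.VO
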